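import Pool.Agent.R769.MN.Mat
import Pool.Agent.R890.FF.HfpFin

set_option autoImplicit false
set_option linter.unusedSectionVars false

/-!
# Pairs of a 2-flow and a 4-flow: graphs with matching number at most eight
-/

namespace Pool.Agent.K3h83.HM

open Finset Pool.Agent.TH362.TF Pool.Agent.TH362.TF.Str Pool.Agent.R890.FF Pool.Agent.R769.MN
open Pool.Agent.H160R2.HF (OrGraph)

variable {V E : Type} [Fintype V] [DecidableEq V] [Fintype E] [DecidableEq E]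

theorem all_match (s t : E → V) (hN : N1 s t univ)
    (hM : ∀ M : Finset E, IsMat s t M → M.card ≤ 8) : All s t := by
  refine all_class (Cl := fun s t => ∀ M : Finset E, IsMat s t M → M.card ≤ 8) ?_ ?_ _
    s t rfl hM hN
  · intro s t π h M hM
    exact h M (hM.of_map π)
  · intro s t h1 h2
    exact match8 s t univ h2 (fun M _ hM => h1 M hM)

theorem hfp_match (K : OrGraph V E) (h : K.Bridgeless)
    (hM : ∀ M : Finset E, IsMat K.t K.h M → M.card ≤ 8) :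
    (∃ φ₂ φ₄ : E → ℤ, K.IsHalfFlowPair φ₂ φ₄) ∧
      ∀ (w : V) (α β : E → ℤ), (K.cut {w}).card = 3 →
        (∀ e ∈ K.cut {w}, |α e| ≤ 1 ∧ |β e| ≤ 3 ∧ (α e = 0 → 2 ≤ |β e|)) →
        ∑ e with K.t e = w, α e = ∑ e with K.h e = w, α e →
        ∑ e with K.t e = w, β e = ∑ e with K.h e = w, β e →
        ∃ φ₂ φ₄ : E → ℤ, K.IsHalfFlowPair φ₂ φ₄ ∧ ∀ e ∈ K.cut {w}, φ₂ e = α e ∧ φ₄ e = β e := by
  obtain ⟨⟨f, f1, f2⟩, h2⟩ := all_match K.t K.h (n1_of_bridge K h) hM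
  refine ⟨⟨fun e => (f e).1, fun e => (f e).2, (pair_iff' K _ _).2 ⟨f1, f2⟩⟩, ?_⟩
  intro w α β hw hA hα hβ
  have hc : K.cut {w} = star K.t K.h w := cut_star K.t K.h w
  rw [hc] at hw hA ⊢
  obtain ⟨g, g1, g2, g3⟩ := h2 w hw (fun e => (α e, β e))
    (fun e he => (adm_iff _ _).2 (hA e he)) ((net_zero_iff _ _ _ _).2 ⟨hα, hβ⟩)
  refine ⟨fun e => (g e).1, fun e => (g e).2, (pair_iff' K _ _).2 ⟨g1, g2⟩, fun e he => ?_⟩
  show (g e).1 = α e ∧ (g e).2 = β e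
  rw [g3 e he]
  exact ⟨rfl, rfl⟩

end Pool.Agent.K3h83.HM
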